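import Mathlib

set_option autoImplicit false

namespace Pool.Agent.Results.MP_a2c218_gt.Example

open Set

/-- `𝒰` is an ω-cover of `X` -/
def OmegaCover {X : Type} [TopologicalSpace X] (𝒰 : Set (Set X)) : Prop :=
  (∀ U ∈ 𝒰, IsOpen U) ∧ univ ∉ 𝒰 ∧ ∀ F : Set X, F.Finite → ∃ U ∈ 𝒰, F ⊆ U

/-- `𝒰` is a k-cover of `X` -/
def KCover {X : Type} [TopologicalSpace X] (𝒰 : Set (Set X)) : Prop :=
  (∀ U ∈ 𝒰, IsOpen U) ∧ univ ∉ 𝒰 ∧ ∀ K : Set X, IsCompact K → ∃ U ∈ 𝒰, K ⊆ U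

def OmegaLindelof (X : Type) [TopologicalSpace X] : Prop :=
  ∀ 𝒰 : Set (Set X), OmegaCover 𝒰 → ∃ 𝒱 ⊆ 𝒰, 𝒱.Countable ∧ OmegaCover 𝒱

def KLindelof (X : Type) [TopologicalSpace X] : Prop :=
  ∀ 𝒰 : Set (Set X), KCover 𝒰 → ∃ 𝒱 ⊆ 𝒰, 𝒱.Countable ∧ KCover 𝒱

/-- countable sets lying in finitely many columns and finitely many rows -/
def Small (I : Set (ℝ × ℕ)) : Prop :=
  I.Countable ∧ ∃ C : Set ℝ, C.Finite ∧ ∃ m : ℕ, ∀ a ∈ I, a.1 ∈ C ∨ a.2 ≤ m

lemma Small.mono {I J : Set (ℝ × ℕ)} (h : Small J) (hIJ : I ⊆ J) : Small I := by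
  obtain ⟨h1, C, hC, m, hm⟩ := h
  exact ⟨h1.mono hIJ, C, hC, m, fun a ha => hm a (hIJ ha)⟩

lemma Small.union {I J : Set (ℝ × ℕ)} (hI : Small I) (hJ : Small J) : Small (I ∪ J) := by
  obtain ⟨h1, C, hC, m, hm⟩ := hI
  obtain ⟨h2, D, hD, n, hn⟩ := hJ
  refine ⟨h1.union h2, C ∪ D, hC.union hD, max m n, ?_⟩
  rintro a (ha | ha)
  · rcases hm a ha with h | h
    · exact Or.inl (Or.inl h)
    · exact Or.inr (h.trans (le_max_left _ _))
  · rcases hn a ha with h | h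
    · exact Or.inl (Or.inr h)
    · exact Or.inr (h.trans (le_max_right _ _))

def Sp : Type := Option (ℝ × ℕ)

def pt : Sp := none
def el (a : ℝ × ℕ) : Sp := some a

lemma el_ne (a : ℝ × ℕ) : el a ≠ pt := Option.some_ne_none a
lemma el_inj : Function.Injective el := fun _ _ h => Option.some.inj h
lemma cases' (x : Sp) : x = pt ∨ ∃ a, x = el a := by
  cases x with
  | none => exact Or.inl rfl
  | some a => exact Or.inr ⟨a, rfl⟩

instance : TopologicalSpace Sp where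
  IsOpen U := pt ∈ U → Small {a | el a ∉ U}
  isOpen_univ := fun _ => ⟨by simp, ∅, finite_empty, 0, by simp⟩
  isOpen_inter := fun s t hs ht h => by
    refine ((hs h.1).union (ht h.2)).mono ?_
    intro a ha
    simp only [mem_ofPred_eq, mem_inter_iff, not_and_or] at ha
    exact ha
  isOpen_sUnion := fun S hS h => by
    obtain ⟨t, ht, hp⟩ := h
    refine (hS t ht hp).mono ?_
    intro a ha hat
    exact ha ⟨t, ht, hat⟩

lemma isOpen_iff (U : Set Sp) : IsOpen U ↔ (pt ∈ U → Small {a | el a ∉ U}) := Iff.rfl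

lemma open_of_not {U : Set Sp} (h : pt ∉ U) : IsOpen U := fun h' => absurd h' h

lemma open_compl {I : Set (ℝ × ℕ)} (h : Small I) : IsOpen (el '' I)ᶜ := by
  intro _
  refine h.mono ?_
  intro a ha
  simp only [mem_ofPred_eq, mem_compl_iff, not_not] at ha
  obtain ⟨b, hb, hab⟩ := ha
  rwa [← el_inj hab]

instance : T1Space Sp := by
  refine ⟨fun x => ⟨?_⟩⟩
  rcases cases' x with rfl | ⟨a, rfl⟩
  · exact open_of_not (by simp)
  · have : Small {a} := ⟨countable_singleton a, {a.1}, finite_singleton _, 0, by simp⟩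
    simpa using open_compl this

instance : NormalSpace Sp := by
  refine ⟨fun s t hs ht hst => ?_⟩
  by_cases h : pt ∈ s
  · have h' : pt ∉ t := fun h' => Set.disjoint_left.1 hst h h'
    exact ⟨tᶜ, t, ht.isOpen_compl, open_of_not h', hst.subset_compl_right, Subset.rfl,
      disjoint_compl_left⟩
  · exact ⟨s, sᶜ, open_of_not h, hs.isOpen_compl, Subset.rfl, hst.symm.subset_compl_right,
      disjoint_compl_right⟩

lemma compl_countable {U : Set Sp} (hU : IsOpen U) (h : pt ∈ U) : Uᶜ.Countable := by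
  refine ((hU h).1.image el).mono ?_
  intro x hx
  rcases cases' x with rfl | ⟨a, rfl⟩
  · exact absurd h hx
  · exact ⟨a, hx, rfl⟩

lemma omega : OmegaLindelof Sp := by
  rintro 𝒰 ⟨h1, h2, h3⟩
  have : ∀ F : Set Sp, ∃ U : Set Sp, F.Finite → U ∈ 𝒰 ∧ F ⊆ U ∧ Uᶜ.Countable := by
    intro F
    by_cases hF : F.Finite
    · obtain ⟨U, hU, hFU⟩ := h3 (insert pt F) (hF.insert _)
      exact ⟨U, fun _ => ⟨hU, (subset_insert _ _).trans hFU,
        compl_countable (h1 U hU) (hFU (mem_insert _ _))⟩⟩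
    · exact ⟨∅, fun h => absurd h hF⟩
  choose U hU using this
  let Z : ℕ → Set Sp := fun n => Nat.rec ∅
    (fun _ Y => Y ∪ ⋃ F ∈ {F : Set Sp | F.Finite ∧ F ⊆ Y}, (U F)ᶜ) n
  have hZs : ∀ n, Z (n + 1) = Z n ∪ ⋃ F ∈ {F : Set Sp | F.Finite ∧ F ⊆ Z n}, (U F)ᶜ :=
    fun _ => rfl
  have hZc : ∀ n, (Z n).Countable := by
    intro n
    induction n with
    | zero => exact countable_empty
    | succ n ih =>
      rw [hZs]
      exact ih.union ((countable_ofPred_finite_subset ih).biUnion fun F hF => (hU F hF.1).2.2)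
  have hZm : Monotone Z := monotone_nat_of_le_succ fun n => by
    rw [hZs]; exact subset_union_left
  have hW : (⋃ n, Z n).Countable := countable_iUnion hZc
  refine ⟨U '' {F : Set Sp | F.Finite ∧ F ⊆ ⋃ n, Z n}, ?_,
    (countable_ofPred_finite_subset hW).image _, ?_, ?_, ?_⟩
  · rintro _ ⟨F, hF, rfl⟩; exact (hU F hF.1).1
  · rintro _ ⟨F, hF, rfl⟩; exact h1 _ (hU F hF.1).1
  · rintro ⟨F, hF, h⟩; exact h2 (h ▸ (hU F hF.1).1)
  · intro F hF
    have hF' : (F ∩ ⋃ n, Z n).Finite := hF.inter_of_left _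
    refine ⟨U (F ∩ ⋃ n, Z n), ⟨_, ⟨hF', inter_subset_right⟩, rfl⟩, ?_⟩
    intro x hx
    by_contra hxU
    have hb : ∃ n, F ∩ (⋃ n, Z n) ⊆ Z n := by
      have : ∀ y ∈ F ∩ ⋃ n, Z n, ∃ n, y ∈ Z n := fun y hy => mem_iUnion.1 hy.2
      choose! g hg using this
      obtain ⟨n, hn⟩ := (hF'.image g).bddAbove
      exact ⟨n, fun y hy => hZm (hn ⟨y, hy, rfl⟩) (hg y hy)⟩
    obtain ⟨n, hn⟩ := hb
    have : x ∈ Z (n + 1) := by
      rw [hZs]
      exact Or.inr (mem_biUnion (show (F ∩ ⋃ n, Z n) ∈ {F : Set Sp | F.Finite ∧ F ⊆ Z n} from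
        ⟨hF', hn⟩) hxU)
    exact hxU ((hU _ hF').2.1 ⟨hx, mem_iUnion.2 ⟨n + 1, this⟩⟩)

lemma finite_of_compact {K : Set Sp} (hK : IsCompact K) {I : Set (ℝ × ℕ)} (hI : Small I)
    (hIK : el '' I ⊆ K) : I.Finite := by
  have hc : IsCompact (el '' I) := hK.of_isClosed_subset ⟨open_compl hI⟩ hIK
  have : (el '' I).Finite := by
    obtain ⟨t, ht, h⟩ := hc.elim_nhds_subcover (fun x => {x}) (by
      rintro _ ⟨a, -, rfl⟩
      exact (open_of_not (by simpa using (el_ne a).symm)).mem_nhds rfl)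
    refine t.finite_toSet.subset ?_
    intro x hx
    simpa using h hx
  exact this.of_finite_image el_inj.injOn

def col (x : ℝ) : Set (ℝ × ℕ) := {a | a.1 = x}

lemma small_col (x : ℝ) : Small (col x) := by
  refine ⟨?_, {x}, finite_singleton _, 0, fun a ha => Or.inl ha⟩
  refine (countable_range (fun n : ℕ => (x, n))).mono ?_
  rintro ⟨y, n⟩ (rfl : y = x)
  exact ⟨n, rfl⟩

lemma notK : ¬ KLindelof Sp := by
  intro h
  refine (fun hk : KCover (range fun x : ℝ => (el '' col x)ᶜ) => ?_) ⟨?_, ?_, ?_⟩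
  · obtain ⟨𝒱, h1, h2, -, -, h3⟩ := h _ hk
    have : ∀ V ∈ 𝒱, ∃ x : ℝ, (el '' col x)ᶜ = V := fun V hV => h1 hV
    choose! g hg using this
    obtain ⟨f, hf⟩ := countable_iff_exists_injOn.1 (h2.image g)
    have hK : IsCompact (insert pt (el '' {a | a.1 ∈ g '' 𝒱 ∧ a.2 = f a.1})) := by
      rw [isCompact_iff_ultrafilter_le_nhds]
      intro u hu
      by_cases hp : (u : Filter Sp) ≤ nhds pt
      · exact ⟨pt, mem_insert _ _, hp⟩
      · rw [le_nhds_iff] at hp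
        push Not at hp
        obtain ⟨s, hs, hso, hsu⟩ := hp
        obtain ⟨-, C, hC, m, hm⟩ := hso hs
        have hfin : ((insert pt (el '' {a | a.1 ∈ g '' 𝒱 ∧ a.2 = f a.1})) ∩ sᶜ).Finite := by
          have h4 : (C ∪ (g '' 𝒱 ∩ f ⁻¹' Iic m)).Finite := by
            refine hC.union (Finite.of_finite_image ((finite_Iic m).subset ?_)
              (hf.mono inter_subset_left))
            rintro _ ⟨y, hy, rfl⟩
            exact hy.2
          refine (h4.image fun x => el (x, f x)).subset ?_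
          rintro y ⟨rfl | ⟨a, ⟨ha1, ha2⟩, rfl⟩, hy⟩
          · exact absurd hs hy
          · refine ⟨a.1, ?_, by show el (a.1, f a.1) = el a; rw [← ha2]⟩
            rcases hm a hy with h5 | h5
            · exact Or.inl h5
            · exact Or.inr ⟨ha1, by simpa [← ha2] using h5⟩
        have hmem : ((insert pt (el '' {a | a.1 ∈ g '' 𝒱 ∧ a.2 = f a.1})) ∩ sᶜ) ∈ u :=
          Filter.inter_mem (Filter.le_principal_iff.1 hu) (Ultrafilter.compl_mem_iff_notMem.2 hsu)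
        obtain ⟨y, hy, rfl⟩ := Ultrafilter.eq_pure_of_finite_mem hfin hmem
        exact ⟨y, hy.1, pure_le_nhds y⟩
    obtain ⟨V, hV, hKV⟩ := h3 _ hK
    have : el (g V, f (g V)) ∈ V := hKV (Or.inr ⟨_, ⟨⟨V, hV, rfl⟩, rfl⟩, rfl⟩)
    have h6 : el (g V, f (g V)) ∈ (el '' col (g V))ᶜ := by rw [hg V hV]; exact this
    exact h6 ⟨_, rfl, rfl⟩
  · rintro _ ⟨x, rfl⟩; exact open_compl (small_col x)
  · rintro ⟨x, hx⟩
    have : el (x, 0) ∈ (el '' col x)ᶜ := by
      have h' : (el '' col x)ᶜ = univ := hx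
      rw [h']; trivial
    exact this ⟨_, rfl, rfl⟩
  · intro K hK
    have hrow : ∀ n : ℕ, {x : ℝ | el (x, n) ∈ K}.Finite := by
      intro n
      by_contra hinf
      obtain ⟨t, ht, htc, hti⟩ := Set.Infinite.exists_subset_countable_infinite hinf
      have hs : Small ((fun x => (x, n)) '' t) :=
        ⟨htc.image _, ∅, finite_empty, n, by rintro _ ⟨x, -, rfl⟩; exact Or.inr le_rfl⟩
      have := finite_of_compact hK hs (by rintro _ ⟨_, ⟨x, hx, rfl⟩, rfl⟩; exact ht hx)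
      exact hti (this.of_finite_image fun a _ b _ hab => (Prod.mk.inj hab).1)
    have hc : (⋃ n : ℕ, {x : ℝ | el (x, n) ∈ K}).Countable :=
      countable_iUnion fun n => (hrow n).countable
    obtain ⟨x, hx⟩ : ∃ x, x ∉ ⋃ n : ℕ, {x : ℝ | el (x, n) ∈ K} := by
      by_contra hne
      push Not at hne
      exact Cardinal.not_countable_real (hc.mono fun x _ => hne x)
    refine ⟨_, ⟨x, rfl⟩, ?_⟩
    rintro y hy ⟨⟨a, n⟩, (rfl : a = x), rfl⟩
    exact hx (mem_iUnion.2 ⟨n, hy⟩)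

theorem result : ∃ (X : Type) (_ : TopologicalSpace X),
    T4Space X ∧ OmegaLindelof X ∧ ¬ KLindelof X :=
  ⟨Sp, inferInstance, {}, omega, notK⟩

end Pool.Agent.Results.MP_a2c218_gt.Example
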